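import Pool.Agent.W833.BD.Sym

/-!
# Ballistic deposition has several stationary laws in large dimension

For every `d ≥ 100000` ballistic deposition on `ℤ^d`, seen from the origin, has `2 d` pairwise
distinct stationary laws: for every direction `± e_i` there is one whose mean slope is a positive
multiple of `± e_i`.
-/

namespace Pool.Agent.Results.MP_4bb68c_pr.NonUnique

open MeasureTheory Filter Topology Pool.Agent.W833.BD

theorem result : ∀ d : ℕ, 100000 ≤ d → ∃ (a : ℝ) (μ : Fin d → ℤˣ → Measure (Om d)), 0 < a ∧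
    (∀ (i j : Fin d) (s t : ℤˣ), (i, s) ≠ (j, t) → μ i s ≠ μ j t) ∧
    ∀ (i : Fin d) (s : ℤˣ), IsProbabilityMeasure (μ i s) ∧ Stationary (μ i s) ∧
      (∀ᵐ g ∂(μ i s), g 0 = 0) ∧
      (∀ z : V d, (μ i s).map (fun g y => g (y + z) - g z) = μ i s) ∧
      ∀ x : V d, Integrable (fun g : Om d => (g x : ℝ)) (μ i s) ∧
        ∫ g, (g x : ℝ) ∂(μ i s) = a * ((s : ℤ) : ℝ) * x i := by
  intro d hd
  haveI : NeZero d := ⟨by omega⟩
  obtain ⟨ν, a, hν, ha, hmean⟩ := exists_nice hd
  refine ⟨a, fun i s => ν.map (Sp (Equiv.swap 0 i) (fun _ => s)), ha, ?_, ?_⟩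
  · intro i j s t hne heq
    have hm : ∀ (i : Fin d) (s : ℤˣ) (x : V d),
        ∫ g, (g x : ℝ) ∂(ν.map (Sp (Equiv.swap 0 i) (fun _ => s))) = a * ((s : ℤ) : ℝ) * x i := by
      intro i s x
      rw [integral_map_Sp, hmean]
      simp only [sp, Equiv.coe_fn_mk, Equiv.swap_apply_left]
      push_cast
      ring
    have h1 := hm i s (Pi.single i 1)
    have h2 := hm j t (Pi.single i 1)
    dsimp only at heq
    rw [heq, h2] at h1
    apply hne
    by_cases hij : i = j
    · subst hij
      simp only [Pi.single_eq_same, Int.cast_one, mul_one] at h1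
      have h3 : ((t : ℤ) : ℝ) = ((s : ℤ) : ℝ) := mul_left_cancel₀ ha.ne' h1
      have h4 : (t : ℤ) = (s : ℤ) := by exact_mod_cast h3
      rw [Units.ext h4]
    · rw [Pi.single_eq_of_ne (Ne.symm hij)] at h1
      simp only [Int.cast_zero, mul_zero, Pi.single_eq_same, Int.cast_one, mul_one] at h1
      have h3 : a * ((s : ℤ) : ℝ) ≠ 0 := by
        apply mul_ne_zero ha.ne'
        exact_mod_cast s.ne_zero
      exact absurd h1.symm h3
  · intro i s
    have h := hν.map_Sp (Equiv.swap 0 i) (fun _ => s)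
    refine ⟨h.wstat.prob, h.wstat.stationary, h.wstat.zero, h.trans, fun x => ⟨h.int x, ?_⟩⟩
    rw [integral_map_Sp, hmean]
    simp only [sp, Equiv.coe_fn_mk, Equiv.swap_apply_left]
    push_cast
    ring

end Pool.Agent.Results.MP_4bb68c_pr.NonUnique
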